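import Pool.Agent.Helper8.CB.Cof

/-!
# CB, degree 3, piece COF3: the ideal `(x) / 𝔮` and the class of its norm
-/

set_option autoImplicit false

namespace Pool.Agent.Helper8.CB

open NumberField Polynomial Pool.Agent.Helper4.CB Pool.Agent.Helper35.CB

variable {K : Type} [Field K] [NumberField K]

/-- an ideal containing a number `≡ r ^ e` modulo `m` is prime to `m` -/
theorem sup_span_eq_top {m r e : ℕ} (hrm : r.Coprime m) {x : 𝓞 K}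
    (hx : (m : 𝓞 K) ∣ x - (r : 𝓞 K) ^ e) {I : Ideal (𝓞 K)} (hxI : x ∈ I) :
    I ⊔ Ideal.span {(m : 𝓞 K)} = ⊤ := by
  by_contra hne
  obtain ⟨M, hM, hle⟩ := Ideal.exists_le_maximal _ hne
  exact notMem_of_congr hrm hx hM.isPrime (hle (Ideal.mem_sup_left hxI))
    (hle (Ideal.mem_sup_right (Ideal.mem_span_singleton_self _)))

/-- **COF3.**  The ideal `(x) / 𝔮`; its norm times `N 𝔮` is `|N x|`, `N x ≡ r ^ (e n)` modulo `m`. -/
theorem cofactor3 {J m r e : ℕ} (hJm : 2 ^ J ∣ m) (hr : r ≡ 5 [MOD 2 ^ J]) (hrm : r.Coprime m)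
    (he : 1 ≤ e) (hJ : 5 ^ (e * Module.finrank ℚ K) + 2 < 2 ^ J) {x : 𝓞 K}
    (hx : (m : 𝓞 K) ∣ x - (r : 𝓞 K) ^ e) (q : Pl K) (hq : nm q ≡ 1 [MOD 2 ^ J])
    (hxq : x ∈ q.asIdeal) :
    ∃ I : {I : Ideal (𝓞 K) // I ≠ ⊥ ∧ I ⊔ Ideal.span {(m : 𝓞 K)} = ⊤}, I.1 ≠ ⊤ ∧ x ∈ I.1 ∧
      Ideal.absNorm I.1 * nm q = (Algebra.norm ℤ x).natAbs ∧
      (((Ideal.absNorm I.1 : ℕ) : ZMod (2 ^ J)) = 5 ^ (e * Module.finrank ℚ K) ∨
        ((Ideal.absNorm I.1 : ℕ) : ZMod (2 ^ J)) = - 5 ^ (e * Module.finrank ℚ K)) := by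
  obtain ⟨b, hb0, hb1, -, hxb, hnorm, -⟩ := cofactor_ideal hJm hr he hJ hx q hq hxq
  refine ⟨⟨b, hb0, sup_span_eq_top hrm hx hxb⟩, hb1, hxb, by rw [← hnorm, mul_comm], ?_⟩
  have hN := norm_mod (K := K) hJm hr hx
  have hN' : ((Algebra.norm ℤ x : ℤ) : ZMod (2 ^ J)) = 5 ^ (e * Module.finrank ℚ K) := by
    have h1 : (((2 ^ J : ℕ) : ℤ)) ∣ Algebra.norm ℤ x - 5 ^ (e * Module.finrank ℚ K) := by
      push_cast
      exact hN
    have h2 := (ZMod.intCast_eq_intCast_iff_dvd_sub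
      ((5 : ℤ) ^ (e * Module.finrank ℚ K)) (Algebra.norm ℤ x) (2 ^ J)).2 h1
    rw [← h2]
    push_cast
    rfl
  have hq1 : ((nm q : ℕ) : ZMod (2 ^ J)) = 1 := by
    have := (ZMod.natCast_eq_natCast_iff _ _ _).2 hq
    rw [this, Nat.cast_one]
  have hb : ((Ideal.absNorm b : ℕ) : ZMod (2 ^ J)) =
      (((Algebra.norm ℤ x).natAbs : ℕ) : ZMod (2 ^ J)) := by
    rw [← hnorm, Nat.cast_mul, hq1, one_mul]
  rcases Int.natAbs_eq (Algebra.norm ℤ x) with h | h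
  · left
    rw [hb, ← hN', ← Int.cast_natCast, ← h]
  · right
    have h3 : (((Algebra.norm ℤ x).natAbs : ℕ) : ℤ) = - Algebra.norm ℤ x := by omega
    rw [hb, ← Int.cast_natCast, h3, Int.cast_neg, hN']

end Pool.Agent.Helper8.CB
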