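import Pool.Agent.Helper35.CB.InstDefs

/-!
# CB, INST, piece COF: the cofactor of a prime of norm `1` modulo `2 ^ J`
-/

set_option autoImplicit false

namespace Pool.Agent.Helper8.CB

open NumberField Polynomial Pool.Agent.Helper4.CB Pool.Agent.Helper35.CB

variable {K : Type} [Field K] [NumberField K]

/-- congruent numbers have congruent norms -/
theorem norm_congr (m : ℕ) {x y : 𝓞 K} (h : (m : 𝓞 K) ∣ x - y) :
    (m : ℤ) ∣ Algebra.norm ℤ x - Algebra.norm ℤ y := by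
  obtain ⟨z, hz⟩ := h
  have hx : x = y + (m : ℤ) • z := by
    rw [zsmul_eq_mul]; push_cast; linear_combination hz
  classical
  let b := bas1 K
  rw [Algebra.norm_eq_matrix_det b, Algebra.norm_eq_matrix_det b]
  have h1 : Algebra.leftMulMatrix b x = Algebra.leftMulMatrix b y +
      (m : ℤ) • Algebra.leftMulMatrix b z := by
    rw [hx, map_add, map_zsmul]
  rw [← ZMod.intCast_eq_intCast_iff_dvd_sub]
  have h2 : ∀ M : Matrix (Fin (Module.finrank ℚ K)) (Fin (Module.finrank ℚ K)) ℤ,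
      ((M.det : ℤ) : ZMod m) = (M.map (Int.cast : ℤ → ZMod m)).det := by
    intro M
    exact (Int.castRingHom (ZMod m)).map_det M
  rw [h2, h2, h1]
  congr 1
  ext i j
  rw [Matrix.map_apply, Matrix.map_apply, Matrix.add_apply, Matrix.smul_apply, smul_eq_mul,
    Int.cast_add, Int.cast_mul, Int.cast_natCast, ZMod.natCast_self, zero_mul, add_zero]

/-- the norm of a natural number -/
theorem norm_natCast (r : ℕ) : Algebra.norm ℤ (r : 𝓞 K) = (r : ℤ) ^ Module.finrank ℚ K := by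
  have h := Algebra.norm_algebraMap (R := ℤ) (S := 𝓞 K) (r : ℤ)
  rw [RingOfIntegers.rank K] at h
  rw [← h]
  simp

/-- the norm of a number `≡ r ^ e` is `≡ 5 ^ (e n)` modulo `2 ^ J` -/
theorem norm_mod {J m r e : ℕ} (hJm : 2 ^ J ∣ m) (hr : r ≡ 5 [MOD 2 ^ J]) {x : 𝓞 K}
    (hx : (m : 𝓞 K) ∣ x - (r : 𝓞 K) ^ e) :
    (2 ^ J : ℤ) ∣ Algebra.norm ℤ x - 5 ^ (e * Module.finrank ℚ K) := by
  have h1 : (2 ^ J : ℤ) ∣ Algebra.norm ℤ x - Algebra.norm ℤ ((r : 𝓞 K) ^ e) :=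
    dvd_trans (by exact_mod_cast hJm) (norm_congr m hx)
  rw [map_pow, norm_natCast, ← pow_mul, mul_comm _ e] at h1
  have h2 : (2 ^ J : ℤ) ∣ (r : ℤ) - 5 := by
    have := (Nat.modEq_iff_dvd.1 hr.symm)
    push_cast at this
    exact this
  have h3 : (2 ^ J : ℤ) ∣ (r : ℤ) ^ (e * Module.finrank ℚ K) - 5 ^ (e * Module.finrank ℚ K) :=
    h2.trans (sub_dvd_pow_sub_pow _ _ _)
  have := dvd_add h1 h3
  rwa [sub_add_sub_cancel] at this

/-- a nonzero number in `𝔮` has norm at least `N 𝔮` -/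
theorem nm_le_norm {x : 𝓞 K} (hx : x ≠ 0) (q : Pl K) (hxq : x ∈ q.asIdeal) :
    nm q ≤ (Algebra.norm ℤ x).natAbs := by
  rw [← Ideal.absNorm_span_singleton]
  refine Nat.le_of_dvd ?_ ?_
  · rw [Nat.pos_iff_ne_zero, Ne, Ideal.absNorm_eq_zero_iff, Ideal.span_singleton_eq_bot]
    exact hx
  · exact Ideal.absNorm_dvd_absNorm_of_le ((Ideal.span_singleton_le_iff_mem _).2 hxq)

omit [NumberField K] in
/-- a number `≡ r ^ e` modulo `m` is prime to `m` -/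
theorem notMem_of_congr {m r e : ℕ} (hrm : r.Coprime m) {x : 𝓞 K}
    (hx : (m : 𝓞 K) ∣ x - (r : 𝓞 K) ^ e) {p : Ideal (𝓞 K)} (hp : p.IsPrime)
    (hxp : x ∈ p) : (m : 𝓞 K) ∉ p := by
  intro hm
  have h1 : (r : 𝓞 K) ^ e ∈ p := by
    have := p.sub_mem hxp (p.mem_of_dvd hx hm)
    rwa [sub_sub_cancel] at this
  have h2 : (r : 𝓞 K) ∈ p := hp.mem_of_pow_mem e h1
  have h3 : IsCoprime ((r : ℕ) : 𝓞 K) ((m : ℕ) : 𝓞 K) := by
    have : IsCoprime (r : ℤ) (m : ℤ) := Nat.isCoprime_iff_coprime.2 hrm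
    have := this.map (Int.castRingHom (𝓞 K))
    simpa using this
  obtain ⟨a, b, hab⟩ := h3
  apply hp.ne_top
  rw [Ideal.eq_top_iff_one, ← hab]
  exact p.add_mem (p.mul_mem_left _ h2) (p.mul_mem_left _ hm)

/-- the quotient of `(x)` by a prime `𝔮 ∋ x` with `N 𝔮 ≡ 1` modulo `2 ^ J` is not trivial -/
theorem cofactor_ideal {J m r e : ℕ} (hJm : 2 ^ J ∣ m) (hr : r ≡ 5 [MOD 2 ^ J])
    (he : 1 ≤ e) (hJ : 5 ^ (e * Module.finrank ℚ K) + 2 < 2 ^ J) {x : 𝓞 K}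
    (hx : (m : 𝓞 K) ∣ x - (r : 𝓞 K) ^ e) (q : Pl K) (hq : nm q ≡ 1 [MOD 2 ^ J])
    (hxq : x ∈ q.asIdeal) :
    ∃ b : Ideal (𝓞 K), b ≠ ⊥ ∧ b ≠ ⊤ ∧ Ideal.span {x} = q.asIdeal * b ∧ x ∈ b ∧
      nm q * Ideal.absNorm b = (Algebra.norm ℤ x).natAbs ∧ x ≠ 0 := by
  have hn : 1 ≤ Module.finrank ℚ K := Module.finrank_pos
  have hN := norm_mod (K := K) hJm hr hx
  have hen : 1 ≤ e * Module.finrank ℚ K := Nat.mul_pos he hn
  have h5 : (5 : ℤ) ≤ 5 ^ (e * Module.finrank ℚ K) := by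
    calc (5 : ℤ) = 5 ^ 1 := (pow_one _).symm
      _ ≤ 5 ^ (e * Module.finrank ℚ K) := pow_le_pow_right₀ (by norm_num) hen
  have hJ' : (5 : ℤ) ^ (e * Module.finrank ℚ K) + 2 < 2 ^ J := by exact_mod_cast hJ
  have hx0 : x ≠ 0 := by
    rintro rfl
    rw [Algebra.norm_zero, zero_sub, dvd_neg] at hN
    have := Int.le_of_dvd (by linarith) hN
    linarith
  obtain ⟨b, hb⟩ := (Ideal.dvd_span_singleton.2 hxq : q.asIdeal ∣ Ideal.span {x})
  have hspan : Ideal.span {x} ≠ ⊥ := by rwa [Ne, Ideal.span_singleton_eq_bot]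
  have hnorm : nm q * Ideal.absNorm b = (Algebra.norm ℤ x).natAbs := by
    rw [← Ideal.absNorm_span_singleton, hb, map_mul]
    rfl
  refine ⟨b, ?_, ?_, hb, ?_, hnorm, hx0⟩
  · rintro rfl
    apply hspan
    rw [hb, Ideal.mul_bot]
  · rintro rfl
    rw [Ideal.absNorm_top, mul_one] at hnorm
    have hq' : (2 ^ J : ℤ) ∣ (nm q : ℤ) - 1 := by
      have := (Nat.modEq_iff_dvd.1 hq.symm)
      push_cast at this
      exact this
    rcases Int.natAbs_eq (Algebra.norm ℤ x) with h | h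
    · rw [h, ← hnorm] at hN
      have h1 := dvd_sub hq' hN
      rw [sub_sub_sub_cancel_left] at h1
      have h2 := Int.le_of_dvd (by linarith) h1
      linarith
    · rw [h, ← hnorm] at hN
      have h1 := dvd_add hq' hN
      have h3 : (nm q : ℤ) - 1 + (-(nm q : ℤ) - 5 ^ (e * Module.finrank ℚ K)) =
          -(5 ^ (e * Module.finrank ℚ K) + 1) := by ring
      rw [h3, dvd_neg] at h1
      have h2 := Int.le_of_dvd (by linarith) h1
      linarith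
  · have h1 : Ideal.span {x} ≤ b := by
      rw [hb]
      exact Ideal.mul_le_right (I := q.asIdeal) (J := b)
    exact h1 (Ideal.mem_span_singleton_self x)

/-- **COF.** -/
theorem cofactor {J m r e : ℕ} (hJm : 2 ^ J ∣ m) (hr : r ≡ 5 [MOD 2 ^ J]) (hrm : r.Coprime m)
    (he : 1 ≤ e) (hJ : 5 ^ (e * Module.finrank ℚ K) + 2 < 2 ^ J) {x : 𝓞 K}
    (hx : (m : 𝓞 K) ∣ x - (r : 𝓞 K) ^ e) (q : Pl K) (hq : nm q ≡ 1 [MOD 2 ^ J])
    (hxq : x ∈ q.asIdeal) :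
    ∃ q' : Pm K m, x ∈ q'.1.asIdeal ∧ nm q'.1 * nm q ≤ (Algebra.norm ℤ x).natAbs := by
  obtain ⟨b, hb0, hb1, -, hxb, hnorm, hx0⟩ := cofactor_ideal hJm hr he hJ hx q hq hxq
  obtain ⟨M, hM, hbM⟩ := Ideal.exists_le_maximal b hb1
  have hM0 : M ≠ ⊥ := by
    rintro rfl
    exact hb0 (le_bot_iff.1 hbM)
  have hMp : M.IsPrime := hM.isPrime
  refine ⟨⟨⟨M, hMp, hM0⟩, notMem_of_congr hrm hx hMp (hbM hxb)⟩, hbM hxb, ?_⟩
  rw [← hnorm, mul_comm]
  refine Nat.mul_le_mul_left _ (Nat.le_of_dvd ?_ (Ideal.absNorm_dvd_absNorm_of_le hbM))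
  rw [Nat.pos_iff_ne_zero, Ne, Ideal.absNorm_eq_zero_iff]
  exact hb0

end Pool.Agent.Helper8.CB
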